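import Pool.Agent.helper83.ORE.SpecDE

/-!
# Row EPH of project ORE
-/

set_option autoImplicit false

namespace Pool.Agent.ORE

open Module Pool.Agent.GS

section

variable {F V : Type} [Field F] [AddCommGroup V] [Module F V]

theorem EPH_rq {Q : QuadraticForm F V} (h2 : (2 : F) = 0) {x : V} (hx : Q x = 1) (v : V) :
    rq Q x v = v + pb Q v x • x := by
  rw [rq_apply h2 (by rw [hx]; exact one_ne_zero), hx, div_one]

theorem EPH_step {Q : QuadraticForm F V} (h2 : (2 : F) = 0) {a b c d : V} {e p q r s : F}
    (ha : Q a = 1) (hb : Q b = 1) (hc : Q c = 1) (hd : Q d = 1)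
    (hab : pb Q a b = e) (hcd : pb Q c d = e) (hac : pb Q a c = p) (had : pb Q a d = q)
    (hbc : pb Q b c = r) (hbd : pb Q b d = s) (z : Equiv.Perm V)
    (hz : z = rq Q a * rq Q b * rq Q c * rq Q d) (α β γ δ α' β' γ' δ' : F)
    (e1 : δ' = δ + α * q + β * s + γ * e) (e2 : γ' = γ + α * p + β * r + δ' * e)
    (e3 : β' = β + α * e + γ' * r + δ' * s) (e4 : α' = α + β' * e + γ' * p + δ' * q) :
    z (α • a + β • b + γ • c + δ • d) = α' • a + β' • b + γ' • c + δ' • d := by
  have hba : pb Q b a = e := (pb_symm Q b a).trans hab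
  have hdc : pb Q d c = e := (pb_symm Q d c).trans hcd
  have hca : pb Q c a = p := (pb_symm Q c a).trans hac
  have hda : pb Q d a = q := (pb_symm Q d a).trans had
  have hcb : pb Q c b = r := (pb_symm Q c b).trans hbc
  have hdb : pb Q d b = s := (pb_symm Q d b).trans hbd
  have s1 : rq Q d (α • a + β • b + γ • c + δ • d) = α • a + β • b + γ • c + δ' • d := by
    rw [EPH_rq h2 hd]
    simp only [map_add, LinearMap.add_apply, map_smul, LinearMap.smul_apply, smul_eq_mul, had,
      hbd, hcd, pb_self2 h2]
    rw [e1]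
    module
  have s2 : rq Q c (α • a + β • b + γ • c + δ' • d) = α • a + β • b + γ' • c + δ' • d := by
    rw [EPH_rq h2 hc]
    simp only [map_add, LinearMap.add_apply, map_smul, LinearMap.smul_apply, smul_eq_mul, hac,
      hbc, hdc, pb_self2 h2]
    rw [e2]
    module
  have s3 : rq Q b (α • a + β • b + γ' • c + δ' • d) = α • a + β' • b + γ' • c + δ' • d := by
    rw [EPH_rq h2 hb]
    simp only [map_add, LinearMap.add_apply, map_smul, LinearMap.smul_apply, smul_eq_mul, hab,
      hcb, hdb, pb_self2 h2]
    rw [e3]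
    module
  have s4 : rq Q a (α • a + β' • b + γ' • c + δ' • d) = α' • a + β' • b + γ' • c + δ' • d := by
    rw [EPH_rq h2 ha]
    simp only [map_add, LinearMap.add_apply, map_smul, LinearMap.smul_apply, smul_eq_mul, hba,
      hca, hda, pb_self2 h2]
    rw [e4]
    module
  rw [hz, Equiv.Perm.mul_apply, Equiv.Perm.mul_apply, Equiv.Perm.mul_apply, s1, s2, s3, s4]

end

theorem EPH : EPH_stmt := by
  intro F V _ _ _ Q h2 a b c d e ha hb hc hd hab hcd hcase z hz
  have h0 : a = (1 : F) • a + (0 : F) • b + (0 : F) • c + (0 : F) • d := by module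
  rcases hcase with ⟨he, hac, had, hbc, hbd⟩ | ⟨he, hac, hbd, had, hbc⟩
  · subst he
    have st := EPH_step h2 ha hb hc hd hab hcd hac had hbc hbd z hz
    have z1 : z a = (1 : F) • a + (1 : F) • b + (1 : F) • c + (1 : F) • d := by
      have := st 1 0 0 0 1 1 1 1 (by ring) (by ring) (by ring)
        (by linear_combination (-1 : F) * h2)
      rw [← h0] at this
      exact this
    have z2 : z (z a) = (0 : F) • a + (0 : F) • b + (1 : F) • c + (0 : F) • d := by
      rw [z1]
      exact st 1 1 1 1 0 0 1 0 (by linear_combination (-1 : F) * h2)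
        (by linear_combination (-1 : F) * h2) (by linear_combination (-1 : F) * h2)
        (by linear_combination (-1 : F) * h2)
    have z3 : z (z (z a)) = (1 : F) • a + (1 : F) • b + (1 : F) • c + (0 : F) • d := by
      rw [z2]
      exact st 0 0 1 0 1 1 1 0 (by ring) (by ring) (by ring) (by ring)
    have z4 : z (z (z (z a))) = (1 : F) • a + (0 : F) • b + (1 : F) • c + (1 : F) • d := by
      rw [z3]
      exact st 1 1 1 0 1 0 1 1 (by ring) (by linear_combination (-1 : F) * h2)
        (by linear_combination (-1 : F) * h2) (by linear_combination (-1 : F) * h2)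
    rw [z4, z3, z2, z1]
    have key : (1 : F) • a + (0 : F) • b + (1 : F) • c + (1 : F) • d +
        ((1 : F) • a + (1 : F) • b + (1 : F) • c + (0 : F) • d) +
        ((0 : F) • a + (0 : F) • b + (1 : F) • c + (0 : F) • d) +
        ((1 : F) • a + (1 : F) • b + (1 : F) • c + (1 : F) • d) + a =
        ((2 : F) * 2) • a + (2 : F) • b + ((2 : F) * 2) • c + (2 : F) • d := by
      module
    rw [key, h2]
    simp
  · obtain ⟨f, hf⟩ : ∃ f, f = e⁻¹ := ⟨_, rfl⟩
    rw [← hf] at hac hbd had hbc
    have hef : e * f = 1 := by rw [hf, mul_inv_cancel₀ he]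
    have st := EPH_step h2 ha hb hc hd hab hcd hac had hbc hbd z hz
    have z1 : z a = (e + f) • a + (e + f) • b + (e + f) • c + f • d := by
      have := st 1 0 0 0 (e + f) (e + f) (e + f) f
        (by linear_combination (0 : F) * h2)
        (by linear_combination (-1) * h2 + (-1) * hef)
        (by linear_combination (-1 - f ^ 2) * h2 + (-2) * hef)
        (by linear_combination (-2 - f ^ 2 - e ^ 2) * h2 + (-3) * hef)
      rw [← h0] at this
      exact this
    have z2 : z (z a) = (0 : F) • a + (0 : F) • b + (1 : F) • c + e • d := by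
      rw [z1]
      exact st (e + f) (e + f) (e + f) f 0 0 1 e
        (by linear_combination (-2 - f - f ^ 2 - e ^ 2) * h2 + (-4) * hef)
        (by linear_combination (-1 - f - f ^ 2 - e - e ^ 2) * h2 + (-3) * hef)
        (by linear_combination (-1 - f - e - e ^ 2) * h2 + (-2) * hef)
        (by linear_combination (-1 - f - e) * h2 + (-1) * hef)
    have z3 : z (z (z a)) = (e + f) • a + f • b + (1 : F) • c + (0 : F) • d := by
      rw [z2]
      exact st 0 0 1 e (e + f) f 1 0
        (by linear_combination (-e) * h2)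
        (by ring)
        (by ring)
        (by linear_combination (-1) * h2 + (-1) * hef)
    have z4 : z (z (z (z a))) = (1 : F) • a + e • b + (e + f) • c + (e + f) • d := by
      rw [z3]
      exact st (e + f) f 1 0 1 e (e + f) (e + f)
        (by linear_combination (-1 - f ^ 2) * h2 + (-2) * hef)
        (by linear_combination (-2 - f ^ 2 - e ^ 2) * h2 + (-3) * hef)
        (by linear_combination (-2 - f - f ^ 2 - e ^ 2) * h2 + (-4) * hef)
        (by linear_combination (-1 - f - f ^ 2 - e - e ^ 2) * h2 + (-3) * hef)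
    rw [z4, z3, z2, z1]
    have key : (1 : F) • a + e • b + (e + f) • c + (e + f) • d +
        ((e + f) • a + f • b + (1 : F) • c + (0 : F) • d) +
        ((0 : F) • a + (0 : F) • b + (1 : F) • c + e • d) +
        ((e + f) • a + (e + f) • b + (e + f) • c + f • d) + a =
        ((2 : F) * (1 + f + e)) • a + ((2 : F) * (f + e)) • b + ((2 : F) * (1 + f + e)) • c +
          ((2 : F) * (f + e)) • d := by
      module
    rw [key, h2]
    simp

end Pool.Agent.ORE
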